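import Pool.Agent.Work.MP_c9932b_h82.One
import Pool.Agent.Work.MP_c9932b_sb_helper23.PACK
import Pool.Agent.Work.MP_c9932b_sb_helper36.GB
import Pool.Agent.Work.MP_c9932b_sb_helper36.KIN
import Pool.Agent.Work.MP_c9932b_sb_helper36.KSZ
import Pool.Agent.Work.MP_c9932b_sb_helper45.DIF
import Pool.Agent.Work.MP_c9932b_sb_helper45.SLP
import Pool.Agent.Work.MP_c9932b_sb_helper54.TREE
import Pool.Agent.Work.MP_c9932b_sb_helper12.RUN
import Pool.Agent.Work.MP_c9932b_sb_helper70.SGN
import Pool.Agent.Work.MP_c9932b_sb_helper81.UNI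
import Pool.Agent.Work.MP_c9932b_sb_helper83.CRT
import Pool.Agent.Work.MP_c9932b_sb_helper83.DIV
import Pool.Agent.Work.MP_c9932b_sb_helper83.LNP
import Pool.Agent.Work.MP_c9932b_sb_helper83.MAX
import Pool.Agent.Work.MP_c9932b_sb_helper83.ROOT
import Pool.Agent.Work.MP_c9932b_sb_helper83.STD

/-!
# The bounded Matiyasevich conjecture: a complete instance and one universal formula

`BMC` holds if and only if one explicit bounded formula `PsiSix` is equivalent to an existential
formula in all models of `IΔ₀ + BΣ₁`, and if and only if one open formula `U` with a fixed number of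
witnesses serves for all open formulas `θ` (up to the substitution of 17 numbers and of two
polynomials).
-/

set_option autoImplicit false

namespace Pool.Agent.Results.MP_c9932b_lc.OneFormula

open Pool.SBM Pool.SBM.helper82

theorem result :
    (BMC ↔ ExistentialIn PsiSix 20) ∧ (BMC ↔ ∃ (L : ℕ) (U : Opn), OneOpenFormula L U) := by
  have hLNP := Pool.SBM.helper83.stmt_LNP
  have hMAX := Pool.SBM.helper83.stmt_MAX hLNP
  have hDIV := Pool.SBM.helper83.stmt_DIV hMAX
  have hROOT := Pool.SBM.helper83.stmt_ROOT hMAX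
  have hSTD := Pool.SBM.helper83.stmt_STD
  have hCRT := Pool.SBM.helper83.stmt_CRT hDIV
  have hSGN := Pool.SBM.helper70.stmt_SGN hMAX
  have hTREE := Pool.SBM.helper54.stmt_TREE hCRT hDIV hSTD
  have hKIN := Pool.SBM.helper36.stmt_KIN
  have hKSZ := Pool.SBM.helper36.stmt_KSZ
  have hGB := Pool.SBM.helper36.stmt_GB
  have hPACK := Pool.SBM.helper23.stmt_PACK hCRT hROOT hDIV hKIN
  have hRUN := Pool.SBM.helper12.stmt_RUN
  have hDIF := Pool.SBM.helper45.stmt_DIF
  have hSLP := Pool.SBM.helper45.stmt_SLP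
  have hUNI := Pool.SBM.helper81.stmt_UNI hSLP hRUN hGB hDIF hSGN hTREE hMAX hSTD hDIV
  have h1 : BMC → ExistentialIn PsiSix 20 := fun h => Pool.SBM.helper54.stmt_EXI h PsiSix 20
  have h2 : ExistentialIn PsiSix 20 → ∃ (L : ℕ) (U : Opn), OneOpenFormula L U :=
    one_of_psi hUNI hPACK hKSZ hDIV
  have h3 : (∃ (L : ℕ) (U : Opn), OneOpenFormula L U) → BMC := fun ⟨_, _, h⟩ => bmc_of_one h
  exact ⟨⟨h1, fun h => h3 (h2 h)⟩, ⟨fun h => h2 (h1 h), h3⟩⟩

end Pool.Agent.Results.MP_c9932b_lc.OneFormula
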