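import Pool.Agent.Work.MP_c9932b_sb_helper4.CUT
import Pool.Agent.Work.MP_c9932b_sb_helper4.ULT
import Pool.Agent.Work.MP_c9932b_sb_helper12.PAR
import Pool.Agent.Work.MP_c9932b_sb_helper12.RUN
import Pool.Agent.Work.MP_c9932b_sb_helper23.PACK
import Pool.Agent.Work.MP_c9932b_sb_helper36.COD
import Pool.Agent.Work.MP_c9932b_sb_helper36.CONV
import Pool.Agent.Work.MP_c9932b_sb_helper36.GB
import Pool.Agent.Work.MP_c9932b_sb_helper36.KIN
import Pool.Agent.Work.MP_c9932b_sb_helper36.KSZ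
import Pool.Agent.Work.MP_c9932b_sb_helper45.DIF
import Pool.Agent.Work.MP_c9932b_sb_helper45.SLP
import Pool.Agent.Work.MP_c9932b_sb_helper54.EXI
import Pool.Agent.Work.MP_c9932b_sb_helper54.TREE
import Pool.Agent.Work.MP_c9932b_sb_helper70.SGN
import Pool.Agent.Work.MP_c9932b_sb_helper81.UNI
import Pool.Agent.Work.MP_c9932b_sb_helper81.FIN
import Pool.Agent.Work.MP_c9932b_sb_helper83.CRT
import Pool.Agent.Work.MP_c9932b_sb_helper83.DIV
import Pool.Agent.Work.MP_c9932b_sb_helper83.LNP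
import Pool.Agent.Work.MP_c9932b_sb_helper83.MAX
import Pool.Agent.Work.MP_c9932b_sb_helper83.ROOT
import Pool.Agent.Work.MP_c9932b_sb_helper83.STD

/-!
# The sharp bounded Matiyasevich conjecture is equivalent to the plain one

For every natural coding of tuples, the bounded Matiyasevich conjecture `BMC` holds if and only if
its sharp form with one exponent `m` for all open formulas holds; the iterated pairing function is a
natural coding.
-/

set_option autoImplicit false

namespace Pool.Agent.Results.MP_c9932b_lc.SharpIffBMC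

open Pool.SBM

theorem result :
    (∀ (cd : Coding) (gn : Opn → ℕ), cd.Natural → (∀ θ, 2 ≤ gn θ) → (BMC ↔ Sharp cd gn)) ∧
      Coding.Natural pairCoding := by
  have hLNP := Pool.SBM.helper83.stmt_LNP
  have hMAX := Pool.SBM.helper83.stmt_MAX hLNP
  have hDIV := Pool.SBM.helper83.stmt_DIV hMAX
  have hROOT := Pool.SBM.helper83.stmt_ROOT hMAX
  have hSTD := Pool.SBM.helper83.stmt_STD
  have hCRT := Pool.SBM.helper83.stmt_CRT hDIV
  have hSGN := Pool.SBM.helper70.stmt_SGN hMAX
  have hTREE := Pool.SBM.helper54.stmt_TREE hCRT hDIV hSTD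
  have hEXI := Pool.SBM.helper54.stmt_EXI
  have hKIN := Pool.SBM.helper36.stmt_KIN
  have hKSZ := Pool.SBM.helper36.stmt_KSZ
  have hGB := Pool.SBM.helper36.stmt_GB
  have hPACK := Pool.SBM.helper23.stmt_PACK hCRT hROOT hDIV hKIN
  have hCUT := Pool.SBM.helper4.stmt_CUT hLNP
  have hULT := Pool.SBM.helper4.stmt_ULT hLNP
  have hPAR := Pool.SBM.helper12.stmt_PAR hULT hCUT
  have hRUN := Pool.SBM.helper12.stmt_RUN
  have hDIF := Pool.SBM.helper45.stmt_DIF
  have hSLP := Pool.SBM.helper45.stmt_SLP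
  have hUNI := Pool.SBM.helper81.stmt_UNI hSLP hRUN hGB hDIF hSGN hTREE hMAX hSTD hDIV
  have hFIN := Pool.SBM.helper81.stmt_FIN hEXI hPAR hUNI hPACK hKSZ hSTD hDIV
  refine ⟨fun cd gn hcd hgn => ⟨fun h => hFIN cd gn hcd hgn h, fun h => ?_⟩,
    Pool.SBM.helper36.stmt_COD⟩
  exact Pool.SBM.helper36.stmt_CONV cd gn hcd h

end Pool.Agent.Results.MP_c9932b_lc.SharpIffBMC
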